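import Pool.Agent.Helper83.CO.St
import Pool.Agent.Helper53.CX.M_Sum

/-! MODULE ADM of project CO: the good lift as a structure. -/

set_option autoImplicit false

open scoped BigOperators
open MvPolynomial

namespace Pool.Agent.Helper81.CO

open Pool.Agent.Helper53.CX Pool.Agent.Helper83.CO

theorem card_crit {P : Finset ℂ} (h0 : (0 : ℂ) ∉ P) : (crit P).card = P.card + 2 := by
  unfold crit
  rw [Finset.card_insert_of_notMem, Finset.card_insert_of_notMem,
    Finset.card_image_of_injective _ (Option.some_injective ℂ)]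
  · intro h
    obtain ⟨p, hp, hp0⟩ := Finset.mem_image.1 h
    exact h0 (by have := Option.some_injective ℂ hp0; rwa [this] at hp)
  · intro h
    rcases Finset.mem_insert.1 h with h | h
    · exact absurd h (by simp)
    · obtain ⟨p, _, hp0⟩ := Finset.mem_image.1 h
      exact absurd hp0 (by simp)

theorem hADM (hEX : StEX) (hCMB : StCMB) : StADM := by
  intro k P D vd hC hvd
  obtain ⟨la, d, e, s₀, hs₀, hla, hd, hbase, hsum⟩ := hCMB (Option ℂ)
    (Option ℂ × (Fin (k + 1) → ℤ)) (crit P) D (fun e => e.1) (fun e => (e.2 0).toNat)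
    (by
      rw [card_crit hC.zero]
      have := Finset.card_pos.2 hC.nonempty
      omega)
    (by
      intro s hs
      have h := hC.two s hs
      have h2 : ((∑ e ∈ D.filter (fun e => e.1 = s), (e.2 0).toNat : ℕ) : ℤ) =
          ∑ e ∈ D.filter (fun e => e.1 = s), e.2 0 := by
        rw [Nat.cast_sum]
        refine Finset.sum_congr rfl fun e he => ?_
        exact Int.toNat_of_nonneg (hC.mem e (Finset.mem_filter.1 he).1).2.1
      have h3 : (2 : ℤ) ≤ ((∑ e ∈ D.filter (fun e => e.1 = s), (e.2 0).toNat : ℕ) : ℤ) := by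
        rw [h2]; exact h
      exact_mod_cast h3)
  -- the base identity over the integers
  have hb : ∀ s ∈ crit P, ∑ e ∈ D.filter (fun e => e.1 = s), (la e : ℤ) * e.2 0 =
      d + if s = s₀ then (e : ℤ) else 0 := by
    intro s hs
    have h := hbase s hs
    have h1 : ∑ e ∈ D.filter (fun e => e.1 = s), (la e : ℤ) * e.2 0 =
        ((∑ e ∈ D.filter (fun e => e.1 = s), la e * (e.2 0).toNat : ℕ) : ℤ) := by
      rw [Nat.cast_sum]
      refine Finset.sum_congr rfl fun e he => ?_
      rw [Nat.cast_mul, Int.toNat_of_nonneg (hC.mem e (Finset.mem_filter.1 he).1).2.1]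
    rw [h1, h]
    split_ifs <;> push_cast <;> rfl
  have hfin : ∑ e ∈ D, (la e : ℤ) + 2 * P.card ≤ D.card + P.card * d := by
    rw [card_crit hC.zero, Nat.add_sub_cancel] at hsum
    exact_mod_cast hsum
  -- the vector W
  set W : Fin (k + 1) → ℤ := Fin.cons (e : ℤ) (fun j => ∑ c ∈ D, (la c : ℤ) * c.2 j.succ) with hW
  by_cases hW0 : W = 0
  · have he0 : (e : ℤ) = 0 := by
      have := congrFun hW0 0
      simpa [hW] using this
    have hj0 : ∀ j : Fin k, ∑ c ∈ D, (la c : ℤ) * c.2 j.succ = 0 := by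
      intro j
      have := congrFun hW0 j.succ
      simpa [hW] using this
    have hpos : (0 : ℤ) ≤ (Pi.single 0 1 : Fin (k + 1) → ℤ) 0 := by
      rw [Pi.single_eq_same]
      exact zero_le_one
    have huu : ∑ j, (Pi.single 0 1 : Fin (k + 1) → ℤ) j * (Pi.single 0 1 : Fin (k + 1) → ℤ) j =
        1 := by
      rw [Fin.sum_univ_succ]
      simp
    obtain ⟨v', hv'1, hv'2⟩ := hEX k s₀ (Pi.single 0 1) (Pi.single 0 1) hpos huu
    refine ⟨⟨vd, la, d, 0, s₀, Pi.single 0 1, v', hvd, hv'2, hs₀, hpos,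
      ⟨Pi.single 0 1, huu⟩, hla, hd, ?_, ?_⟩, rfl, hfin⟩
    · intro s hs
      rw [hb s hs, he0]
      simp
    · intro j
      rw [hj0 j]
      simp
  · obtain ⟨κ, w, u, hκ, hWw, hu⟩ := Sum_prim W hW0
    have he : (e : ℤ) = κ * w 0 := by
      have := congrFun hWw 0
      simpa [hW] using this
    have hj : ∀ j : Fin k, ∑ c ∈ D, (la c : ℤ) * c.2 j.succ = κ * w j.succ := by
      intro j
      have := congrFun hWw j.succ
      simpa [hW] using this
    have hw0 : 0 ≤ w 0 := by
      by_contra h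
      push Not at h
      have h1 : (κ : ℤ) * w 0 < 0 := mul_neg_of_pos_of_neg (by exact_mod_cast hκ) h
      have h2 : (0 : ℤ) ≤ (e : ℤ) := Int.natCast_nonneg e
      omega
    obtain ⟨v', hv'1, hv'2⟩ := hEX k s₀ w u hw0 hu
    refine ⟨⟨vd, la, d, κ, s₀, w, v', hvd, hv'2, hs₀, hw0, ⟨u, hu⟩, hla, hd, ?_, hj⟩, rfl, hfin⟩
    intro s hs
    rw [hb s hs, he]

end Pool.Agent.Helper81.CO
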